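import Pool.Agent.helper87.X4.Spec

set_option autoImplicit false

namespace Pool.Agent.X4

open Matrix Pool.Agent.PL

private theorem D2_der {N : ℕ} (Q Z Y : Matrix (Fin N) (Fin N) ℚ) (I : Fin 2 → Fin N) :
    der Z 2 (phi Q Y) I = (Z * (Y * Q⁻¹) + (Y * Q⁻¹) * Zᵀ) (I 0) (I 1) := by
  have h0 : ∀ j : Fin N, Function.update I 0 j 0 = j := fun j => by simp
  have h1 : ∀ j : Fin N, Function.update I 0 j 1 = I 1 := fun j => by simp
  have h2 : ∀ j : Fin N, Function.update I 1 j 0 = I 0 := fun j => by simp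
  have h3 : ∀ j : Fin N, Function.update I 1 j 1 = j := fun j => by simp
  have e0 : der Z 2 (phi Q Y) I = ∑ j : Fin N, Z (I 0) j * (Y * Q⁻¹) (Function.update I 0 j 0)
      (Function.update I 0 j 1) + ∑ j : Fin N, Z (I 1) j * (Y * Q⁻¹) (Function.update I 1 j 0)
      (Function.update I 1 j 1) := Fin.sum_univ_two _
  rw [e0, Matrix.add_apply, Matrix.mul_apply, Matrix.mul_apply]
  refine congrArg₂ (· + ·) ?_ ?_
  · refine Finset.sum_congr rfl fun j _ => ?_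
    rw [h0, h1]
  · refine Finset.sum_congr rfl fun j _ => ?_
    rw [h2, h3, Matrix.transpose_apply]
    ring

private theorem D2_iff {N : ℕ} (Q Z Y : Matrix (Fin N) (Fin N) ℚ) :
    der Z 2 (phi Q Y) = 0 ↔ Z * (Y * Q⁻¹) + (Y * Q⁻¹) * Zᵀ = 0 := by
  constructor
  · intro h
    ext i j
    have h1 := congrFun h ![i, j]
    rw [D2_der] at h1
    exact h1
  · intro h
    funext I
    rw [D2_der, h]
    rfl

theorem D2 : D2_stmt := by
  intro N Q hQ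
  have hdet : IsUnit Q.det := (Matrix.isUnit_iff_isUnit_det Q).1 hQ
  have q1 : Q * Q⁻¹ = 1 := Matrix.mul_nonsing_inv Q hdet
  have q2 : Q⁻¹ * Q = 1 := Matrix.nonsing_inv_mul Q hdet
  constructor
  · intro Z
    rw [D2_iff, one_mul]
    constructor
    · intro h
      have h1 : Q * (Z * Q⁻¹ + Q⁻¹ * Zᵀ) * Q = Zᵀ * Q + Q * Z := by
        calc Q * (Z * Q⁻¹ + Q⁻¹ * Zᵀ) * Q = Q * Z * (Q⁻¹ * Q) + (Q * Q⁻¹) * Zᵀ * Q := by
              noncomm_ring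
          _ = Zᵀ * Q + Q * Z := by rw [q1, q2, mul_one, one_mul, add_comm]
      rw [← h1, h, mul_zero, zero_mul]
    · intro h
      have h1 : Q⁻¹ * (Zᵀ * Q + Q * Z) * Q⁻¹ = Z * Q⁻¹ + Q⁻¹ * Zᵀ := by
        calc Q⁻¹ * (Zᵀ * Q + Q * Z) * Q⁻¹ = Q⁻¹ * Zᵀ * (Q * Q⁻¹) + (Q⁻¹ * Q) * Z * Q⁻¹ := by
              noncomm_ring
          _ = Z * Q⁻¹ + Q⁻¹ * Zᵀ := by rw [q1, q2, mul_one, one_mul, add_comm]
      rw [← h1, h, mul_zero, zero_mul]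
  · intro Z Y hZ
    rw [D2_iff]
    have h2 : Q⁻¹ * Zᵀ = -(Z * Q⁻¹) := by
      have h3 : Q⁻¹ * (Zᵀ * Q + Q * Z) * Q⁻¹ = Q⁻¹ * Zᵀ + Z * Q⁻¹ := by
        calc Q⁻¹ * (Zᵀ * Q + Q * Z) * Q⁻¹ = Q⁻¹ * Zᵀ * (Q * Q⁻¹) + (Q⁻¹ * Q) * Z * Q⁻¹ := by
              noncomm_ring
          _ = Q⁻¹ * Zᵀ + Z * Q⁻¹ := by rw [q1, q2, mul_one, one_mul]
      rw [hZ, mul_zero, zero_mul] at h3
      exact eq_neg_of_add_eq_zero_left h3.symm
    have h4 : Z * (Y * Q⁻¹) + (Y * Q⁻¹) * Zᵀ = (Z * Y - Y * Z) * Q⁻¹ := by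
      rw [mul_assoc Y Q⁻¹ Zᵀ, h2]
      noncomm_ring
    rw [h4]
    constructor
    · intro h
      have h5 : (Z * Y - Y * Z) * Q⁻¹ * Q = Z * Y - Y * Z := by
        rw [mul_assoc, q2, mul_one]
      rw [h, zero_mul] at h5
      exact sub_eq_zero.1 h5.symm
    · intro h
      rw [h, sub_self, zero_mul]

end Pool.Agent.X4
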